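import Pool.Agent.H51.RG.Defs

/-!
helper41: the second perfect matching from an arbitrary cost function on the first one.
-/

set_option autoImplicit false
set_option linter.unusedSectionVars false

namespace Pool.Agent.H41.RG

open Pool.Agent.H43.F5 Pool.Agent.H51.RG Finset

section

variable {V E : Type} [DecidableEq V] [DecidableEq E]

/-- every odd cut is met by a perfect matching -/
lemma cost_odd_pos {G : Gr V E} (hG : Ok G) {N : Finset E} (hN : PM G N) {X : Finset V}
    (hX : X ⊆ G.vs) (ho : Odd X.card) : (cut G N X).card % 2 = 1 := by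
  rw [cutN_parity hG hN hX]
  exact Nat.odd_iff.1 ho

/-- the weights `1/k` on `M` and `(k-1)/(2k)` outside -/
def cw (M : Finset E) (k : ℕ) : E → ℚ := fun e => if e ∈ M then 1 / (k : ℚ) else ((k : ℚ) - 1) / (2 * k)

lemma cw_sum (M : Finset E) (k : ℕ) (A : Finset E) :
    ∑ e ∈ A, cw M k e = ((A.filter (fun e => e ∈ M)).card : ℚ) * (1 / (k : ℚ)) +
      ((A.card : ℚ) - ((A.filter (fun e => e ∈ M)).card : ℚ)) * (((k : ℚ) - 1) / (2 * k)) := by
  unfold cw
  rw [Finset.sum_ite, Finset.sum_const, Finset.sum_const, nsmul_eq_mul, nsmul_eq_mul]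
  congr 1
  congr 1
  have h := Finset.card_filter_add_card_filter_not (s := A) (fun e => e ∈ M)
  have h2 : (A.card : ℚ) = ((A.filter (fun e => e ∈ M)).card : ℚ) +
      ((A.filter (fun e => e ∉ M)).card : ℚ) := by
    exact_mod_cast h.symm
  rw [h2]
  ring

lemma cost_cut_filter {G : Gr V E} {M : Finset E} (hM : M ⊆ G.es) (X : Finset V) :
    (cut G G.es X).filter (fun e => e ∈ M) = cut G M X := by
  ext e
  simp only [Finset.mem_filter, mem_cut]
  constructor
  · rintro ⟨⟨_, h2⟩, h3⟩; exact ⟨h3, h2⟩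
  · rintro ⟨h1, h2⟩; exact ⟨⟨hM h1, h2⟩, h1⟩

lemma cost_star_filter {G : Gr V E} {M : Finset E} (hM : M ⊆ G.es) (v : V) :
    (star G G.es v).filter (fun e => e ∈ M) = star G M v := by
  ext e
  simp only [Finset.mem_filter, mem_star]
  constructor
  · rintro ⟨⟨_, h2⟩, h3⟩; exact ⟨h3, h2⟩
  · rintro ⟨h1, h2⟩; exact ⟨⟨hM h1, h2⟩, h1⟩

lemma cw_wt {G : Gr V E} (hG : Ok G) {M : Finset E} (hM : PM G M) {k : ℕ} (hk3 : 3 ≤ k)
    (hcut : ∀ X ⊆ G.vs, Odd X.card → cut G G.es X ⊆ M → k ≤ (cut G G.es X).card) :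
    Wt G (cw M k) where
  ha := hG.ha
  hb := hG.hb
  ne := hG.ne
  pos := by
    intro e _
    have hk : (3 : ℚ) ≤ (k : ℚ) := by exact_mod_cast hk3
    unfold cw
    split_ifs
    · exact div_pos one_pos (by linarith)
    · exact div_pos (by linarith) (by linarith)
  deg := by
    intro v hv
    have hk : (3 : ℚ) ≤ (k : ℚ) := by exact_mod_cast hk3
    rw [cw_sum, cost_star_filter hM.sub, hM.deg v hv, hG.deg v hv]
    have hk0 : (k : ℚ) ≠ 0 := by linarith
    field_simp
    push_cast
    ring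
  odd := by
    intro X hX ho
    have hk : (3 : ℚ) ≤ (k : ℚ) := by exact_mod_cast hk3
    have hk0 : (0 : ℚ) < (k : ℚ) := by linarith
    rw [cw_sum, cost_cut_filter hM.sub]
    have h1 := cost_odd_pos hG hM hX ho
    have h2 := cut_parity hG hX
    have h3 := Nat.odd_iff.1 ho
    have hle : (cut G M X).card ≤ (cut G G.es X).card :=
      Finset.card_le_card (cut_mono hM.sub X)
    rcases Nat.lt_or_ge (cut G M X).card (cut G G.es X).card with hlt | hge
    · have h4 : (cut G M X).card + 2 ≤ (cut G G.es X).card := by omega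
      have h5 : (1 : ℚ) ≤ ((cut G M X).card : ℚ) := by
        have : 1 ≤ (cut G M X).card := by omega
        exact_mod_cast this
      have h6 : (2 : ℚ) ≤ ((cut G G.es X).card : ℚ) - ((cut G M X).card : ℚ) := by
        have : (((cut G M X).card + 2 : ℕ) : ℚ) ≤ ((cut G G.es X).card : ℚ) := by
          exact_mod_cast h4
        push_cast at this
        linarith
      have h7 : (0 : ℚ) ≤ ((k : ℚ) - 1) / (2 * k) := div_nonneg (by linarith) (by linarith)
      have h8 : (0 : ℚ) ≤ 1 / (k : ℚ) := div_nonneg zero_le_one hk0.le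
      have h9 : 1 / (k : ℚ) + 2 * (((k : ℚ) - 1) / (2 * k)) = 1 := by
        field_simp
        ring
      have h10 := mul_le_mul_of_nonneg_right h5 h8
      have h11 := mul_le_mul_of_nonneg_right h6 h7
      linarith
    · have heq : (cut G M X).card = (cut G G.es X).card := le_antisymm hle hge
      have hsub : cut G G.es X ⊆ M := by
        have := Finset.eq_of_subset_of_card_le (cut_mono hM.sub X) hge
        rw [← this]
        exact Finset.filter_subset _ _
      have h4 := hcut X hX ho hsub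
      have h5 : (k : ℚ) ≤ ((cut G G.es X).card : ℚ) := by exact_mod_cast h4
      rw [heq, sub_self, zero_mul, add_zero, mul_one_div, le_div_iff₀ hk0]
      linarith

/-- the second perfect matching, from Edmonds' theorem -/
theorem good_of_cost (hE : T_EDM) {G : Gr V E} (hG : Ok G) {M : Finset E} (hM : PM G M) {k : ℕ}
    (hk3 : 3 ≤ k)
    (hcut : ∀ X ⊆ G.vs, Odd X.card → cut G G.es X ⊆ M → k ≤ (cut G G.es X).card)
    (c : E → ℚ) (hc0 : ∀ e ∈ M, 0 ≤ c e) (hcs : ∑ e ∈ M, c e < k)
    (hc1 : ∀ X ⊆ G.vs, Odd X.card → cut G G.es X ⊆ M → k < (cut G G.es X).card →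
      1 ≤ ∑ e ∈ cut G G.es X, c e) :
    ∃ N, PM G N ∧ Good G (G.es \ M) N := by
  classical
  have hw := cw_wt hG hM hk3 hcut
  have hk : (3 : ℚ) ≤ (k : ℚ) := by exact_mod_cast hk3
  have hk0 : (0 : ℚ) < (k : ℚ) := by linarith
  set P : Finset (Finset V) := G.vs.powerset.filter
    (fun X => Odd X.card ∧ cut G G.es X ⊆ M ∧ (cut G G.es X).card = k) with hP
  set d : E → ℚ := fun e => (∑ X ∈ P, if e ∈ cut G G.es X then 1 else 0) +
    (if e ∈ M then c e else 0) with hd
  obtain ⟨N, hN, hcost⟩ := hE V E G (cw M k) hw d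
  refine ⟨N, hN, ?_⟩
  -- the cost of `N`
  have hcN : ∑ e ∈ N, d e = (∑ X ∈ P, ((cut G N X).card : ℚ)) + ∑ e ∈ N.filter (fun e => e ∈ M), c e := by
    have hA : ∑ e ∈ N.filter (fun e => e ∈ M), c e = ∑ e ∈ N, if e ∈ M then c e else 0 :=
      Finset.sum_filter _ _
    rw [hA, hd, Finset.sum_add_distrib, Finset.sum_comm]
    congr 1
    apply Finset.sum_congr rfl
    intro X _
    rw [Finset.sum_boole]
    congr 2
    ext e
    simp only [Finset.mem_filter, mem_cut]
    constructor
    · rintro ⟨h1, _, h2⟩; exact ⟨h1, h2⟩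
    · rintro ⟨h1, h2⟩; exact ⟨h1, hN.sub h1, h2⟩
  -- the cost of the weighting
  have hcW : ∑ e ∈ G.es, d e * cw M k e = (P.card : ℚ) + (∑ e ∈ M, c e) * (1 / (k : ℚ)) := by
    have h1 : ∀ e ∈ G.es, d e * cw M k e =
        (∑ X ∈ P, if e ∈ cut G G.es X then cw M k e else 0) +
        (if e ∈ M then c e * (1 / (k : ℚ)) else 0) := by
      intro e _
      rw [hd]
      simp only
      rw [add_mul, Finset.sum_mul]
      congr 1
      · apply Finset.sum_congr rfl
        intro X _
        split_ifs <;> ring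
      · by_cases h : e ∈ M
        · simp [h, cw]
        · simp [h]
    rw [Finset.sum_congr rfl h1, Finset.sum_add_distrib, Finset.sum_comm]
    congr 1
    · have h2 : ∀ X ∈ P, (∑ e ∈ G.es, if e ∈ cut G G.es X then cw M k e else 0) = 1 := by
        intro X hX
        obtain ⟨hXs, ho, hsub, hcard⟩ := Finset.mem_filter.1 hX
        rw [Finset.sum_ite_mem]
        have h3 : G.es ∩ cut G G.es X = cut G G.es X :=
          Finset.inter_eq_right.2 (Finset.filter_subset _ _)
        rw [h3, cw_sum, Finset.filter_true_of_mem (fun e he => hsub he), hcard, sub_self,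
          zero_mul, add_zero]
        exact mul_one_div_cancel hk0.ne'
      rw [Finset.sum_congr rfl h2, Finset.sum_const, nsmul_eq_mul, mul_one]
    · rw [Finset.sum_ite_mem, Finset.inter_eq_right.2 hM.sub, Finset.sum_mul]
  rw [hcN, hcW] at hcost
  have hlt : (∑ e ∈ M, c e) * (1 / (k : ℚ)) < 1 := by
    rw [mul_one_div, div_lt_one hk0]
    exact hcs
  have hpos : ∀ X ∈ P, (1 : ℚ) ≤ ((cut G N X).card : ℚ) := by
    intro X hX
    obtain ⟨hXs, ho, _⟩ := Finset.mem_filter.1 hX
    have h1 := cost_odd_pos hG hN (Finset.mem_powerset.1 hXs) ho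
    have h2 : 1 ≤ (cut G N X).card := by omega
    exact_mod_cast h2
  have hsumP : (P.card : ℚ) ≤ ∑ X ∈ P, ((cut G N X).card : ℚ) := by
    have := Finset.sum_le_sum hpos
    rw [Finset.sum_const, nsmul_eq_mul, mul_one] at this
    exact this
  have hcNM : 0 ≤ ∑ e ∈ N.filter (fun e => e ∈ M), c e :=
    Finset.sum_nonneg (fun e he => hc0 e (Finset.mem_filter.1 he).2)
  have hone : ∀ X ∈ P, (cut G N X).card = 1 := by
    intro X hX
    obtain ⟨hXs, ho, _⟩ := Finset.mem_filter.1 hX
    have h1 := cost_odd_pos hG hN (Finset.mem_powerset.1 hXs) ho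
    by_contra hne
    have h2 : (3 : ℚ) ≤ ((cut G N X).card : ℚ) := by
      have : 3 ≤ (cut G N X).card := by omega
      exact_mod_cast this
    have h3 : ((P.erase X).card : ℚ) ≤ ∑ Y ∈ P.erase X, ((cut G N Y).card : ℚ) := by
      have := Finset.sum_le_sum (fun Y hY => hpos Y (Finset.mem_of_mem_erase hY) :
        ∀ Y ∈ P.erase X, (1 : ℚ) ≤ ((cut G N Y).card : ℚ))
      rw [Finset.sum_const, nsmul_eq_mul, mul_one] at this
      exact this
    have h4 := Finset.add_sum_erase P (fun Y => ((cut G N Y).card : ℚ)) hX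
    have h5 : ((P.erase X).card : ℚ) = (P.card : ℚ) - 1 := by
      rw [Finset.card_erase_of_mem hX, Nat.cast_sub (Finset.card_pos.2 ⟨X, hX⟩), Nat.cast_one]
    linarith
  have hsmall : ∑ e ∈ N.filter (fun e => e ∈ M), c e < 1 := by linarith
  -- goodness
  intro X hX hcr
  by_contra hev
  have ho : Odd X.card := Nat.not_even_iff_odd.1 hev
  have hin : ∀ e ∈ cut G G.es X, e ∈ N ∧ e ∈ M := by
    intro e he
    obtain ⟨h1, h2⟩ := mem_cut.1 he
    obtain ⟨h3, h4⟩ := hcr e h1 h2
    refine ⟨h3, ?_⟩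
    by_contra h5
    exact h4 (Finset.mem_sdiff.2 ⟨h1, h5⟩)
  have hsub : cut G G.es X ⊆ M := fun e he => (hin e he).2
  have hge := hcut X hX ho hsub
  rcases Nat.eq_or_lt_of_le hge with heq | hgt
  · have hXP : X ∈ P := Finset.mem_filter.2 ⟨Finset.mem_powerset.2 hX, ho, hsub, heq.symm⟩
    have h1 := hone X hXP
    have h2 : cut G G.es X ⊆ cut G N X := by
      intro e he
      exact mem_cut.2 ⟨(hin e he).1, (mem_cut.1 he).2⟩
    have h3 := Finset.card_le_card h2
    omega
  · have h1 := hc1 X hX ho hsub hgt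
    have h2 : cut G G.es X ⊆ N.filter (fun e => e ∈ M) := by
      intro e he
      exact Finset.mem_filter.2 (hin e he)
    have h3 := Finset.sum_le_sum_of_subset_of_nonneg (f := c) h2
      (fun e he _ => hc0 e (Finset.mem_filter.1 he).2)
    linarith

end

end Pool.Agent.H41.RG
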