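import Pool.Agent.H51.RG.Defs

/-!
helper41: the maximal step along a perfect matching which costs too much (row DIR).
-/

set_option autoImplicit false
set_option linter.unusedSectionVars false

namespace Pool.Agent.H41.RG

open Pool.Agent.H43.F5 Pool.Agent.H51.RG Finset

section

variable {V E : Type} [DecidableEq V] [DecidableEq E]

/-- the cut of a vertex -/
lemma dir_cut_single {G : Gr V E} (hne : ∀ e ∈ G.es, G.a e ≠ G.b e) {A : Finset E}
    (hA : A ⊆ G.es) (v : V) : cut G A {v} = star G A v := by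
  ext e
  simp only [mem_cut, mem_star, Cr, Finset.mem_singleton]
  constructor
  · rintro ⟨h1, h2⟩
    refine ⟨h1, ?_⟩
    by_contra h
    push Not at h
    exact h2 (by simp [h.1, h.2])
  · rintro ⟨h1, h2⟩
    refine ⟨h1, ?_⟩
    have := hne e (hA h1)
    rcases h2 with h2 | h2
    · intro h
      exact this (h2.trans (h.1 h2).symm)
    · intro h
      exact this ((h.2 h2).trans h2.symm)

lemma dir_cut_compl {G : Gr V E} {w : E → ℚ} (h : Wt G w) {A : Finset E} (hA : A ⊆ G.es)
    (X : Finset V) : cut G A (G.vs \ X) = cut G A X := by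
  ext e
  simp only [mem_cut, Cr, Finset.mem_sdiff]
  constructor
  · rintro ⟨h1, h2⟩
    refine ⟨h1, ?_⟩
    have ha := h.ha e (hA h1)
    have hb := h.hb e (hA h1)
    tauto
  · rintro ⟨h1, h2⟩
    refine ⟨h1, ?_⟩
    have ha := h.ha e (hA h1)
    have hb := h.hb e (hA h1)
    tauto

lemma dir_big {G : Gr V E} {w : E → ℚ} (h : Wt G w) {M : Finset E} (hM : PM G M)
    {X : Finset V} (hX : X ⊆ G.vs) (hk : 2 ≤ (cut G M X).card) :
    2 ≤ X.card ∧ 2 ≤ (G.vs \ X).card := by
  have key : ∀ Y ⊆ G.vs, 2 ≤ (cut G M Y).card → 2 ≤ Y.card := by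
    intro Y hY hc
    by_contra hlt
    rcases (by omega : Y.card = 0 ∨ Y.card = 1) with h0 | h1
    · rw [Finset.card_eq_zero] at h0
      subst h0
      have h3 : cut G M ∅ = ∅ := by ext e; simp [mem_cut, Cr]
      rw [h3] at hc
      simp at hc
    · rw [Finset.card_eq_one] at h1
      obtain ⟨v, rfl⟩ := h1
      rw [dir_cut_single h.ne hM.sub v, hM.deg v (hY (Finset.mem_singleton_self v))] at hc
      omega
  refine ⟨key X hX hk, key (G.vs \ X) Finset.sdiff_subset ?_⟩
  rw [dir_cut_compl h hM.sub]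
  exact hk

/-- some edge of the matching has weight less than one -/
lemma dir_light {G : Gr V E} {w : E → ℚ} (hw : Wt G w) {M : Finset E} (hM : PM G M)
    (c : E → ℚ) (hc : ∑ e ∈ G.es, c e * w e < ∑ e ∈ M, c e) : ∃ e ∈ M, w e < 1 := by
  by_contra hcon
  push Not at hcon
  have hle : ∀ e ∈ G.es, w e ≤ 1 := by
    intro e he
    rw [← hw.deg (G.a e) (hw.ha e he)]
    apply Finset.single_le_sum (f := w) (fun x hx => (hw.pos x (mem_star.1 hx).1).le)
    exact mem_star.2 ⟨he, Or.inl rfl⟩
  have hes : ∀ e ∈ G.es, e ∈ M := by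
    intro e he
    by_contra hne
    have hcard := hM.deg (G.a e) (hw.ha e he)
    obtain ⟨m, hm⟩ := Finset.card_eq_one.1 hcard
    have hmm : m ∈ star G M (G.a e) := by rw [hm]; exact Finset.mem_singleton_self m
    have hmM := (mem_star.1 hmm).1
    have hme : m ≠ e := fun h => hne (h ▸ hmM)
    have hsub : ({m, e} : Finset E) ⊆ star G G.es (G.a e) := by
      intro x hx
      rw [Finset.mem_insert, Finset.mem_singleton] at hx
      rcases hx with rfl | rfl
      · exact mem_star.2 ⟨hM.sub hmM, (mem_star.1 hmm).2⟩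
      · exact mem_star.2 ⟨he, Or.inl rfl⟩
    have h1 := Finset.sum_le_sum_of_subset_of_nonneg (f := w) hsub
      (fun x hx _ => (hw.pos x (mem_star.1 hx).1).le)
    rw [hw.deg _ (hw.ha e he), Finset.sum_pair hme] at h1
    have h2 := hcon m hmM
    have h3 := hw.pos e he
    linarith
  have hEq : M = G.es := Finset.Subset.antisymm hM.sub hes
  rw [hEq] at hc
  apply lt_irrefl (∑ e ∈ G.es, c e * w e)
  refine lt_of_lt_of_eq hc ?_
  apply Finset.sum_congr rfl
  intro e he
  have h1 := hcon e (hes e he)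
  have h2 := hle e he
  rw [le_antisymm h2 h1, mul_one]

end

/-- DIR -/
theorem pf_DIR : T_DIR := by
  intro V E _ _ G w hw hcut M hM c hc
  classical
  obtain ⟨e0, he0, hlt0⟩ := dir_light hw hM c hc
  set k : Finset V → ℕ := fun X => (cut G M X).card with hk
  set W : Finset V → ℚ := fun X => ∑ e ∈ cut G G.es X, w e with hW
  set P : Finset (Finset V) := G.vs.powerset.filter (fun X => Odd X.card ∧ 2 ≤ k X) with hP
  set T : Finset ℚ := M.image w ∪ P.image (fun X => (W X - 1) / ((k X : ℚ) - 1)) with hT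
  have hTne : T.Nonempty := ⟨w e0, Finset.mem_union_left _ (Finset.mem_image_of_mem _ he0)⟩
  set t := T.min' hTne with ht
  have htmem : t ∈ T := T.min'_mem hTne
  have hte : ∀ e ∈ M, t ≤ w e := fun e he =>
    T.min'_le _ (Finset.mem_union_left _ (Finset.mem_image_of_mem _ he))
  have htX : ∀ X ∈ P, t ≤ (W X - 1) / ((k X : ℚ) - 1) := fun X hX =>
    T.min'_le _ (Finset.mem_union_right _
      (Finset.mem_image_of_mem (fun X => (W X - 1) / ((k X : ℚ) - 1)) hX))
  have hkpos : ∀ X ∈ P, (0 : ℚ) < (k X : ℚ) - 1 := by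
    intro X hX
    have h1 := (Finset.mem_filter.1 hX).2.2
    have h2 : (2 : ℚ) ≤ (k X : ℚ) := by exact_mod_cast h1
    linarith
  have hbig : ∀ X ∈ P, 2 ≤ X.card ∧ 2 ≤ (G.vs \ X).card := by
    intro X hX
    have h1 := Finset.mem_filter.1 hX
    exact dir_big hw hM (Finset.mem_powerset.1 h1.1) h1.2.2
  have hWgt : ∀ X ∈ P, 1 < W X := by
    intro X hX
    have h1 := Finset.mem_filter.1 hX
    have hXs := Finset.mem_powerset.1 h1.1
    exact lt_of_le_of_ne (hw.odd X hXs h1.2.1)
      (Ne.symm (hcut X hXs h1.2.1 (hbig X hX).1 (hbig X hX).2))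
  have htpos : 0 < t := by
    rcases Finset.mem_union.1 htmem with h | h
    · obtain ⟨e, he, h⟩ := Finset.mem_image.1 h
      rw [← h]
      exact hw.pos e (hM.sub he)
    · obtain ⟨X, hX, h⟩ := Finset.mem_image.1 h
      rw [← h]
      exact div_pos (by linarith [hWgt X hX]) (hkpos X hX)
  have ht1 : t < 1 := lt_of_le_of_lt (hte e0 he0) hlt0
  have h1t : 0 < 1 - t := by linarith
  clear_value t
  set w' : E → ℚ := fun e => (w e - if e ∈ M then t else 0) / (1 - t) with hw'
  have hsum : ∀ A : Finset E, ∑ e ∈ A, w' e =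
      (∑ e ∈ A, w e - t * ((A.filter (fun e => e ∈ M)).card : ℚ)) / (1 - t) := by
    intro A
    have h1 : ∀ e ∈ A, w' e = (w e - if e ∈ M then t else 0) / (1 - t) := fun e _ => rfl
    rw [Finset.sum_congr rfl h1, ← Finset.sum_div, Finset.sum_sub_distrib, Finset.sum_ite,
      Finset.sum_const_zero, add_zero, Finset.sum_const, nsmul_eq_mul, mul_comm t]
  have hcost : ∑ e ∈ G.es, c e * w' e =
      (∑ e ∈ G.es, c e * w e - t * ∑ e ∈ M, c e) / (1 - t) := by
    have h1 : ∀ e ∈ G.es, c e * w' e =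
        (c e * w e - t * (if e ∈ M then c e else 0)) / (1 - t) := by
      intro e _
      by_cases h : e ∈ M
      · simp only [hw', h, if_true]; ring
      · simp only [hw', h, if_false]; ring
    rw [Finset.sum_congr rfl h1, ← Finset.sum_div, Finset.sum_sub_distrib, ← Finset.mul_sum,
      Finset.sum_ite_mem, Finset.inter_eq_right.2 hM.sub]
  have hcutM : ∀ X : Finset V, (cut G G.es X).filter (fun e => e ∈ M) = cut G M X := by
    intro X
    ext e
    simp only [Finset.mem_filter, mem_cut]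
    constructor
    · rintro ⟨⟨_, h2⟩, h3⟩; exact ⟨h3, h2⟩
    · rintro ⟨h1, h2⟩; exact ⟨⟨hM.sub h1, h2⟩, h1⟩
  have hstarM : ∀ v : V, (star G G.es v).filter (fun e => e ∈ M) = star G M v := by
    intro v
    ext e
    simp only [Finset.mem_filter, mem_star]
    constructor
    · rintro ⟨⟨_, h2⟩, h3⟩; exact ⟨h3, h2⟩
    · rintro ⟨h1, h2⟩; exact ⟨⟨hM.sub h1, h2⟩, h1⟩
  refine ⟨w', ?_, ?_, ?_, ?_, ?_⟩
  · rw [hcost, div_le_iff₀ h1t]
    nlinarith
  · intro e he
    by_cases h : e ∈ M
    · simp only [hw', h, if_true]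
      exact div_nonneg (by linarith [hte e h]) h1t.le
    · simp only [hw', h, if_false]
      exact div_nonneg (by linarith [hw.pos e he]) h1t.le
  · intro v hv
    rw [hsum, hstarM, hw.deg v hv, hM.deg v hv, Nat.cast_one, mul_one]
    exact div_self h1t.ne'
  · intro X hX hodd
    rw [hsum, hcutM, le_div_iff₀ h1t, one_mul]
    have hWX : 1 ≤ W X := hw.odd X hX hodd
    change 1 - t ≤ W X - t * (k X : ℚ)
    by_cases h2 : 2 ≤ k X
    · have hXP : X ∈ P := Finset.mem_filter.2 ⟨Finset.mem_powerset.2 hX, hodd, h2⟩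
      have h3 := htX X hXP
      rw [le_div_iff₀ (hkpos X hXP)] at h3
      linarith
    · have h3 : (k X : ℚ) ≤ 1 := by
        have : k X ≤ 1 := by omega
        exact_mod_cast this
      nlinarith
  · rcases Finset.mem_union.1 htmem with h | h
    · left
      obtain ⟨e, he, h⟩ := Finset.mem_image.1 h
      refine ⟨e, hM.sub he, ?_⟩
      simp only [hw', he, if_true]
      rw [h, sub_self, zero_div]
    · right
      obtain ⟨X, hXP, h⟩ := Finset.mem_image.1 h
      have h1 := Finset.mem_filter.1 hXP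
      have hXs := Finset.mem_powerset.1 h1.1
      refine ⟨X, hXs, h1.2.1, (hbig X hXP).1, (hbig X hXP).2, ?_⟩
      rw [hsum, hcutM]
      change (W X - t * (k X : ℚ)) / (1 - t) = 1
      rw [div_eq_one_iff_eq h1t.ne']
      have h3 : (W X - 1) / ((k X : ℚ) - 1) = t := h
      rw [div_eq_iff (hkpos X hXP).ne'] at h3
      linarith

end Pool.Agent.H41.RG
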