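import Pool.Agent.H43.F5.Defs

/-!
helper41: three perfect matchings with empty intersection give a nowhere-zero flow with values in
`Z2^3` which uses at most four lines.
-/

set_option autoImplicit false
set_option linter.unusedSectionVars false

namespace Pool.Agent.H41.RG

open Pool.Agent.H43.F5 Finset

/-- the four lines -/
def line4 : Fin 4 → Finset (Fin 3 → ZMod 2)
  | 0 => {![0, 1, 1], ![1, 0, 1], ![1, 1, 0]}
  | 1 => {![0, 0, 1], ![1, 1, 0], ![1, 1, 1]}
  | 2 => {![0, 1, 0], ![1, 0, 1], ![1, 1, 1]}
  | 3 => {![1, 0, 0], ![0, 1, 1], ![1, 1, 1]}

/-- flows from three perfect matchings with empty intersection -/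
theorem flow_of_three {V E : Type} [Fintype V] [DecidableEq V] [Fintype E] [DecidableEq E]
    (h t : E → V) (M : Fin 3 → Finset E)
    (hG : Ok (⟨Finset.univ, Finset.univ, h, t⟩ : Gr V E))
    (hM : ∀ i, PM (⟨Finset.univ, Finset.univ, h, t⟩ : Gr V E) (M i))
    (hint : ∀ e, ∃ i, e ∉ M i) :
    ∃ f : E → (Fin 3 → ZMod 2),
        (∀ e, f e ≠ 0) ∧
        (∀ v, (∑ e ∈ Finset.univ.filter (fun e => h e = v), f e)
              + (∑ e ∈ Finset.univ.filter (fun e => t e = v), f e) = 0) ∧
        (Finset.univ.image
          (fun v => (Finset.univ.filter (fun e => h e = v ∨ t e = v)).image f)).card ≤ 4 := by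
  classical
  have hne : ∀ e, h e ≠ t e := fun e => hG.ne e (Finset.mem_univ e)
  have hdeg3 : ∀ v, (Finset.univ.filter (fun e => h e = v ∨ t e = v)).card = 3 := fun v =>
    hG.deg v (Finset.mem_univ v)
  set f : E → (Fin 3 → ZMod 2) := fun e i => if e ∈ M i then 0 else 1 with hf
  have hone : ∀ v i, ((Finset.univ.filter (fun e => h e = v ∨ t e = v)) ∩ M i).card = 1 := by
    intro v i
    rw [← (hM i).deg v (Finset.mem_univ v)]
    congr 1
    ext e
    simp only [Finset.mem_inter, Finset.mem_filter, Finset.mem_univ, true_and, mem_star]
    exact and_comm
  refine ⟨f, ?_, ?_, ?_⟩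
  · intro e he
    obtain ⟨i, hi⟩ := hint e
    have h1 : f e i = 0 := congrFun he i
    simp [hf, hi] at h1
  · intro v
    have h1 : ∑ e ∈ Finset.univ.filter (fun e => h e = v ∨ t e = v), f e = 0 := by
      ext i
      rw [Finset.sum_apply]
      have h2 : ∀ e, f e i = (if e ∈ M i then (1 : ZMod 2) else 0) + 1 := by
        intro e
        simp only [hf]
        by_cases he : e ∈ M i
        · rw [if_pos he, if_pos he]; decide
        · simp [he]
      rw [Finset.sum_congr rfl (fun e _ => h2 e), Finset.sum_add_distrib, Finset.sum_ite_mem,
        Finset.sum_const, Finset.sum_const, hone v i, hdeg3 v]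
      show (1 • (1 : ZMod 2) + 3 • (1 : ZMod 2)) = 0
      decide
    rw [← h1, Finset.filter_or, Finset.sum_union]
    rw [Finset.disjoint_left]
    intro e h1 h2
    simp only [Finset.mem_filter, Finset.mem_univ, true_and] at h1 h2
    exact hne e (h1.trans h2.symm)
  · have hsub : Finset.univ.image
          (fun v => (Finset.univ.filter (fun e => h e = v ∨ t e = v)).image f) ⊆
          Finset.univ.image line4 := by
      intro L hL
      rw [Finset.mem_image] at hL
      obtain ⟨v, _, rfl⟩ := hL
      rw [Finset.mem_image]
      set S := Finset.univ.filter (fun e => h e = v ∨ t e = v) with hS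
      have hSc : S.card = 3 := hdeg3 v
      -- the edges of the three matchings
      have ha : ∀ i, ∃ a ∈ S, a ∈ M i ∧ ∀ e ∈ S, e ≠ a → e ∉ M i := by
        intro i
        obtain ⟨a, ha⟩ := Finset.card_eq_one.1 (hone v i)
        have h1 : a ∈ S ∩ M i := by rw [ha]; simp
        rw [Finset.mem_inter] at h1
        refine ⟨a, h1.1, h1.2, ?_⟩
        intro e he hne' hh
        have : e ∈ S ∩ M i := Finset.mem_inter.2 ⟨he, hh⟩
        rw [ha, Finset.mem_singleton] at this
        exact hne' this
      choose a haS haM hau using ha
      have hfe : ∀ e ∈ S, f e = fun i => if e = a i then 0 else 1 := by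
        intro e he
        funext i
        simp only [hf]
        by_cases h1 : e = a i
        · rw [if_pos h1, if_pos (by rw [h1]; exact haM i)]
        · rw [if_neg h1, if_neg (hau i e he h1)]
      have two : ∀ p q : E, p ∈ S → q ∈ S → p ≠ q → ∃ c ∈ S, c ≠ p ∧ c ≠ q ∧ S = {p, q, c} := by
        intro p q hp hq hpq
        have h1 : ((S.erase p).erase q).card = 1 := by
          rw [Finset.card_erase_of_mem, Finset.card_erase_of_mem hp, hSc]
          exact Finset.mem_erase.2 ⟨Ne.symm hpq, hq⟩
        rw [Finset.card_eq_one] at h1
        obtain ⟨c, hc0⟩ := h1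
        have hc : c ∈ (S.erase p).erase q := by rw [hc0]; simp
        rw [Finset.mem_erase, Finset.mem_erase] at hc
        refine ⟨c, hc.2.2, hc.2.1, hc.1, ?_⟩
        rw [← Finset.insert_erase hp,
          ← Finset.insert_erase (Finset.mem_erase.2 ⟨Ne.symm hpq, hq⟩ : q ∈ S.erase p), hc0]
      have himg : ∀ p q c : E, S = {p, q, c} → S.image f = {f p, f q, f c} := by
        intro p q c hs
        rw [hs, Finset.image_insert, Finset.image_insert, Finset.image_singleton]
      by_cases h01 : a 0 = a 1
      · -- the first two agree
        have h02 : a 0 ≠ a 2 := by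
          intro h02
          obtain ⟨i, hi⟩ := hint (a 0)
          apply hi
          fin_cases i
          · exact haM 0
          · show a 0 ∈ M 1
            rw [h01]; exact haM 1
          · show a 0 ∈ M 2
            rw [h02]; exact haM 2
        obtain ⟨c, hcS, hc0, hc2, hs⟩ := two (a 0) (a 2) (haS 0) (haS 2) h02
        refine ⟨1, Finset.mem_univ _, ?_⟩
        have e0 : f (a 0) = ![0, 0, 1] := by
          rw [hfe _ (haS 0)]
          funext i
          fin_cases i
          · simp
          · simp [h01]
          · simp [h02]
        have e2 : f (a 2) = ![1, 1, 0] := by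
          rw [hfe _ (haS 2)]
          funext i
          fin_cases i
          · simp [Ne.symm h02]
          · simp [← h01, Ne.symm h02]
          · simp
        have ec : f c = ![1, 1, 1] := by
          rw [hfe _ hcS]
          funext i
          fin_cases i
          · simp [hc0]
          · simp [← h01, hc0]
          · simp [hc2]
        rw [himg _ _ _ hs, e0, e2, ec]
        rfl
      · by_cases h02 : a 0 = a 2
        · obtain ⟨c, hcS, hc0, hc1, hs⟩ := two (a 0) (a 1) (haS 0) (haS 1) h01
          refine ⟨2, Finset.mem_univ _, ?_⟩
          have e0 : f (a 0) = ![0, 1, 0] := by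
            rw [hfe _ (haS 0)]
            funext i
            fin_cases i
            · simp
            · simp [h01]
            · simp [h02]
          have e1 : f (a 1) = ![1, 0, 1] := by
            rw [hfe _ (haS 1)]
            funext i
            fin_cases i
            · simp [Ne.symm h01]
            · simp
            · simp [← h02, Ne.symm h01]
          have ec : f c = ![1, 1, 1] := by
            rw [hfe _ hcS]
            funext i
            fin_cases i
            · simp [hc0]
            · simp [hc1]
            · simp [← h02, hc0]
          rw [himg _ _ _ hs, e0, e1, ec]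
          rfl
        · by_cases h12 : a 1 = a 2
          · obtain ⟨c, hcS, hc0, hc1, hs⟩ := two (a 0) (a 1) (haS 0) (haS 1) h01
            refine ⟨3, Finset.mem_univ _, ?_⟩
            have e0 : f (a 0) = ![0, 1, 1] := by
              rw [hfe _ (haS 0)]
              funext i
              fin_cases i
              · simp
              · simp [h01]
              · simp [h02]
            have e1 : f (a 1) = ![1, 0, 0] := by
              rw [hfe _ (haS 1)]
              funext i
              fin_cases i
              · simp [Ne.symm h01]
              · simp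
              · simp [h12]
            have ec : f c = ![1, 1, 1] := by
              rw [hfe _ hcS]
              funext i
              fin_cases i
              · simp [hc0]
              · simp [hc1]
              · simp [← h12, hc1]
            rw [himg _ _ _ hs, e0, e1, ec, Finset.insert_comm]
            rfl
          · obtain ⟨c, hcS, hc0, hc1, hs⟩ := two (a 0) (a 1) (haS 0) (haS 1) h01
            have hc2 : a 2 = c := by
              have h3 : a 2 ∈ S := haS 2
              rw [hs, Finset.mem_insert, Finset.mem_insert, Finset.mem_singleton] at h3
              rcases h3 with h3 | h3 | h3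
              · exact absurd h3.symm h02
              · exact absurd h3.symm h12
              · exact h3
            refine ⟨0, Finset.mem_univ _, ?_⟩
            have e0 : f (a 0) = ![0, 1, 1] := by
              rw [hfe _ (haS 0)]
              funext i
              fin_cases i
              · simp
              · simp [h01]
              · simp [h02]
            have e1 : f (a 1) = ![1, 0, 1] := by
              rw [hfe _ (haS 1)]
              funext i
              fin_cases i
              · simp [Ne.symm h01]
              · simp
              · simp [h12]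
            have ec : f c = ![1, 1, 0] := by
              rw [hfe _ hcS]
              funext i
              fin_cases i
              · simp [hc0]
              · simp [hc1]
              · simp [hc2]
            rw [himg _ _ _ hs, e0, e1, ec]
            rfl
    refine (Finset.card_le_card hsub).trans (Finset.card_image_le.trans ?_)
    rw [Finset.card_univ]
    simp

/-- the same for three named matchings -/
theorem flow4 {V E : Type} [Fintype V] [DecidableEq V] [Fintype E] [DecidableEq E]
    (h t : E → V) (M N L : Finset E)
    (hok : Ok (⟨Finset.univ, Finset.univ, h, t⟩ : Gr V E))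
    (hM : PM (⟨Finset.univ, Finset.univ, h, t⟩ : Gr V E) M)
    (hN : PM (⟨Finset.univ, Finset.univ, h, t⟩ : Gr V E) N)
    (hL : PM (⟨Finset.univ, Finset.univ, h, t⟩ : Gr V E) L)
    (he : ∀ e, ¬ (e ∈ M ∧ e ∈ N ∧ e ∈ L)) :
    ∃ f : E → (Fin 3 → ZMod 2),
        (∀ e, f e ≠ 0) ∧
        (∀ v, (∑ e ∈ Finset.univ.filter (fun e => h e = v), f e)
              + (∑ e ∈ Finset.univ.filter (fun e => t e = v), f e) = 0) ∧
        (Finset.univ.image
          (fun v => (Finset.univ.filter (fun e => h e = v ∨ t e = v)).image f)).card ≤ 4 := by
  apply flow_of_three h t ![M, N, L] hok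
  · intro i
    fin_cases i
    · exact hM
    · exact hN
    · exact hL
  · intro e
    by_contra hcon
    push Not at hcon
    exact he e ⟨hcon 0, hcon 1, hcon 2⟩

end Pool.Agent.H41.RG
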