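import Pool.Agent.H41.RG.COST
import Pool.Agent.H51.RG.Fin

/-!
helper41: F_5-flows from a cost function on a perfect matching, and from few edges joining the
odd circuits of a 2-factor.
-/

set_option autoImplicit false

namespace Pool.Agent.H41.RG

open Pool.Agent.H43.F5 Pool.Agent.H51.RG Finset

theorem flow_of_cost (V E : Type) [Fintype V] [DecidableEq V] [Fintype E] [DecidableEq E]
    (h t : E → V) (hne : ∀ e, h e ≠ t e)
    (hdeg : ∀ v, (univ.filter (fun e => h e = v)).card + (univ.filter (fun e => t e = v)).card = 3)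
    (hbr : ∀ S : Finset V,
      (univ.filter (fun e => (h e ∈ S ∧ t e ∉ S) ∨ (h e ∉ S ∧ t e ∈ S))).card ≠ 1)
    (M : Finset E) (hM : ∀ v, (M.filter (fun e => h e = v ∨ t e = v)).card = 1)
    (k : ℕ) (hk : 3 ≤ k)
    (hcut : ∀ S : Finset V, Odd S.card →
      univ.filter (fun e => (h e ∈ S ∧ t e ∉ S) ∨ (h e ∉ S ∧ t e ∈ S)) ⊆ M →
      k ≤ (univ.filter (fun e => (h e ∈ S ∧ t e ∉ S) ∨ (h e ∉ S ∧ t e ∈ S))).card)
    (c : E → ℚ) (hc0 : ∀ e ∈ M, 0 ≤ c e) (hcs : ∑ e ∈ M, c e < k)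
    (hc1 : ∀ S : Finset V, Odd S.card →
      univ.filter (fun e => (h e ∈ S ∧ t e ∉ S) ∨ (h e ∉ S ∧ t e ∈ S)) ⊆ M →
      k < (univ.filter (fun e => (h e ∈ S ∧ t e ∉ S) ∨ (h e ∉ S ∧ t e ∈ S))).card →
      1 ≤ ∑ e ∈ univ.filter (fun e => (h e ∈ S ∧ t e ∉ S) ∨ (h e ∉ S ∧ t e ∈ S)), c e) :
    ∃ f : E → (Fin 3 → ZMod 2),
        (∀ e, f e ≠ 0) ∧
        (∀ v, (∑ e ∈ univ.filter (fun e => h e = v), f e)
              + (∑ e ∈ univ.filter (fun e => t e = v), f e) = 0) ∧
        (univ.image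
          (fun v => (univ.filter (fun e => h e = v ∨ t e = v)).image f)).card ≤ 5 := by
  classical
  set G : Gr V E := ⟨Finset.univ, Finset.univ, h, t⟩ with hG
  have hcutE : ∀ X : Finset V, cut G G.es X =
      Finset.univ.filter (fun e => (h e ∈ X ∧ t e ∉ X) ∨ (h e ∉ X ∧ t e ∈ X)) := by
    intro X
    ext e
    rw [mem_cut]
    simp only [Finset.mem_filter, Finset.mem_univ, true_and, Cr, hG]
    tauto
  have hok : Ok G := by
    refine ⟨fun e _ => Finset.mem_univ _, fun e _ => Finset.mem_univ _, fun e _ => hne e, ?_, ?_⟩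
    · intro v _
      rw [← hdeg v]
      change (Finset.univ.filter (fun e => h e = v ∨ t e = v)).card = _
      rw [Finset.filter_or, Finset.card_union_of_disjoint]
      rw [Finset.disjoint_left]
      intro e h1 h2
      simp only [Finset.mem_filter, Finset.mem_univ, true_and] at h1 h2
      exact hne e (h1.trans h2.symm)
    · intro X _
      rw [hcutE X]
      exact hbr X
  have hPM : PM G M := ⟨Finset.subset_univ _, fun v _ => hM v⟩
  have hF : ∀ v, (star G (G.es \ M) v).card = 2 := by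
    intro v
    have h1 : star G G.es v = star G (G.es \ M) v ∪ star G M v := by
      ext e
      simp only [Finset.mem_union, mem_star, Finset.mem_sdiff]
      constructor
      · rintro ⟨h1, h2⟩
        by_cases h3 : e ∈ M
        · exact Or.inr ⟨h3, h2⟩
        · exact Or.inl ⟨⟨h1, h3⟩, h2⟩
      · rintro (⟨⟨h1, _⟩, h2⟩ | ⟨h1, h2⟩)
        · exact ⟨h1, h2⟩
        · exact ⟨hPM.sub h1, h2⟩
    have h2 : Disjoint (star G (G.es \ M) v) (star G M v) := by
      rw [Finset.disjoint_left]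
      intro e h3 h4
      exact (Finset.mem_sdiff.1 (mem_star.1 h3).1).2 (mem_star.1 h4).1
    have h3 := hok.deg v (Finset.mem_univ v)
    have h4 := hPM.deg v (Finset.mem_univ v)
    rw [h1, Finset.card_union_of_disjoint h2] at h3
    omega
  obtain ⟨N, hN, hg⟩ := good_of_cost edm hok hPM hk
    (fun X _ ho hs => by rw [hcutE] at hs ⊢; exact hcut X ho hs) c hc0 hcs
    (fun X _ ho hs hlt => by rw [hcutE] at hs hlt ⊢; exact hc1 X ho hs hlt)
  exact flow_of_good h t (G.es \ M) N hok hF hN hg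

theorem flow_of_join (V E : Type) [Fintype V] [DecidableEq V] [Fintype E] [DecidableEq E]
    (h t : E → V) (hne : ∀ e, h e ≠ t e)
    (hdeg : ∀ v, (univ.filter (fun e => h e = v)).card + (univ.filter (fun e => t e = v)).card = 3)
    (hbr : ∀ S : Finset V,
      (univ.filter (fun e => (h e ∈ S ∧ t e ∉ S) ∨ (h e ∉ S ∧ t e ∈ S))).card ≠ 1)
    (M : Finset E) (hM : ∀ v, (M.filter (fun e => h e = v ∨ t e = v)).card = 1)
    (k : ℕ) (hk : 3 ≤ k)
    (hcut : ∀ S : Finset V, Odd S.card →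
      univ.filter (fun e => (h e ∈ S ∧ t e ∉ S) ∨ (h e ∉ S ∧ t e ∈ S)) ⊆ M →
      k ≤ (univ.filter (fun e => (h e ∈ S ∧ t e ∉ S) ∨ (h e ∉ S ∧ t e ∈ S))).card)
    (J : Finset E) (hJM : J ⊆ M) (hJ : J.card < k)
    (hJc : ∀ S : Finset V, Odd S.card →
      ∃ e, (e ∉ M ∨ e ∈ J) ∧ ((h e ∈ S ∧ t e ∉ S) ∨ (h e ∉ S ∧ t e ∈ S))) :
    ∃ f : E → (Fin 3 → ZMod 2),
        (∀ e, f e ≠ 0) ∧
        (∀ v, (∑ e ∈ univ.filter (fun e => h e = v), f e)
              + (∑ e ∈ univ.filter (fun e => t e = v), f e) = 0) ∧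
        (univ.image
          (fun v => (univ.filter (fun e => h e = v ∨ t e = v)).image f)).card ≤ 5 := by
  classical
  refine flow_of_cost V E h t hne hdeg hbr M hM k hk hcut (fun e => if e ∈ J then 1 else 0)
    ?_ ?_ ?_
  · intro e _
    by_cases hj : e ∈ J
    · rw [if_pos hj]; exact zero_le_one
    · rw [if_neg hj]
  · rw [Finset.sum_ite_mem, Finset.inter_eq_right.2 hJM, Finset.sum_const, nsmul_eq_mul, mul_one]
    exact_mod_cast hJ
  · intro S ho hs _
    obtain ⟨e, he, hcr⟩ := hJc S ho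
    have hmem : e ∈ univ.filter (fun e => (h e ∈ S ∧ t e ∉ S) ∨ (h e ∉ S ∧ t e ∈ S)) :=
      Finset.mem_filter.2 ⟨Finset.mem_univ _, hcr⟩
    have heJ : e ∈ J := by
      rcases he with he | he
      · exact absurd (hs hmem) he
      · exact he
    have h1 := Finset.single_le_sum (f := fun e => if e ∈ J then (1 : ℚ) else 0)
      (fun x _ => by
        by_cases hj : x ∈ J
        · rw [if_pos hj]; exact zero_le_one
        · rw [if_neg hj]) hmem
    simpa [heJ] using h1

end Pool.Agent.H41.RG
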