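import Pool.Agent.H51.RG.Fin
import Pool.Agent.H41.RG.F4

/-!
helper41: a third perfect matching which avoids the intersection of two given ones.
-/

set_option autoImplicit false
set_option linter.unusedSectionVars false

namespace Pool.Agent.H41.RG

open Pool.Agent.H43.F5 Pool.Agent.H51.RG Finset

section

variable {V E : Type} [DecidableEq V] [DecidableEq E]

/-- the weights `x` on the intersection, `(1+x)/4` on exactly one, `(1-x)/2` on none -/
def tw (M P : Finset E) (x : ℚ) : E → ℚ := fun e =>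
  (1 - x) / 2 - (1 - 3 * x) / 4 * ((if e ∈ M then 1 else 0) + (if e ∈ P then 1 else 0))

lemma tw_sum (M P : Finset E) (x : ℚ) (A : Finset E) :
    ∑ e ∈ A, tw M P x e = (A.card : ℚ) * ((1 - x) / 2) -
      (1 - 3 * x) / 4 * (((A.filter (fun e => e ∈ M)).card : ℚ) +
        ((A.filter (fun e => e ∈ P)).card : ℚ)) := by
  unfold tw
  rw [Finset.sum_sub_distrib, Finset.sum_const, nsmul_eq_mul, ← Finset.mul_sum,
    Finset.sum_add_distrib, Finset.sum_boole, Finset.sum_boole]

lemma third_cut_filter {G : Gr V E} {M : Finset E} (hM : M ⊆ G.es) (X : Finset V) :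
    (cut G G.es X).filter (fun e => e ∈ M) = cut G M X := by
  ext e
  simp only [Finset.mem_filter, mem_cut]
  constructor
  · rintro ⟨⟨_, h2⟩, h3⟩; exact ⟨h3, h2⟩
  · rintro ⟨h1, h2⟩; exact ⟨⟨hM h1, h2⟩, h1⟩

lemma third_star_filter {G : Gr V E} {M : Finset E} (hM : M ⊆ G.es) (v : V) :
    (star G G.es v).filter (fun e => e ∈ M) = star G M v := by
  ext e
  simp only [Finset.mem_filter, mem_star]
  constructor
  · rintro ⟨⟨_, h2⟩, h3⟩; exact ⟨h3, h2⟩
  · rintro ⟨h1, h2⟩; exact ⟨⟨hM h1, h2⟩, h1⟩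

/-- the third perfect matching -/
theorem third_matching (hE : T_EDM) {G : Gr V E} (hG : Ok G) {M P : Finset E} (hM : PM G M)
    (hP : PM G P)
    (hcut : ∀ X ⊆ G.vs, Odd X.card →
      2 * (cut G G.es X).card ≤ (cut G M X).card + (cut G P X).card + 2 →
      (cut G M X).card + (cut G P X).card < 2 * (cut G G.es X).card ∧
        (M ∩ P).card + 4 ≤ 2 * (cut G G.es X).card) :
    ∃ N, PM G N ∧ ∀ e, ¬ (e ∈ M ∧ e ∈ P ∧ e ∈ N) := by
  classical
  rcases Nat.eq_zero_or_pos (M ∩ P).card with hm0 | hm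
  · refine ⟨P, hP, ?_⟩
    rintro e ⟨h1, h2, _⟩
    rw [Finset.card_eq_zero] at hm0
    exact Finset.notMem_empty e (hm0 ▸ Finset.mem_inter.2 ⟨h1, h2⟩)
  set m := (M ∩ P).card with hmdef
  have hmq : (1 : ℚ) ≤ (m : ℚ) := by exact_mod_cast hm
  set x : ℚ := 1 / ((m : ℚ) + 1) with hx
  have hx0 : 0 < x := div_pos one_pos (by linarith)
  have hxm : x * ((m : ℚ) + 1) = 1 := by
    rw [hx]
    exact one_div_mul_cancel (by linarith)
  have hx1 : x ≤ 1 / 2 := by nlinarith
  have hw : Wt G (tw M P x) := by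
    refine ⟨hG.ha, hG.hb, hG.ne, ?_, ?_, ?_⟩
    · intro e _
      unfold tw
      split_ifs <;> nlinarith
    · intro v hv
      rw [tw_sum, third_star_filter hM.sub, third_star_filter hP.sub, hM.deg v hv, hP.deg v hv,
        hG.deg v hv]
      push_cast
      ring
    · intro X hX ho
      rw [tw_sum, third_cut_filter hM.sub, third_cut_filter hP.sub]
      have h1 := cut_parity hG hX
      have h2 := cutN_parity hG hM hX
      have h3 := cutN_parity hG hP hX
      have h4 := Nat.odd_iff.1 ho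
      have hbr := hG.br X hX
      have h5 : (cut G M X).card ≤ (cut G G.es X).card := Finset.card_le_card (cut_mono hM.sub X)
      have h6 : (cut G P X).card ≤ (cut G G.es X).card := Finset.card_le_card (cut_mono hP.sub X)
      have h7 := hcut X hX ho
      generalize (cut G M X).card = a at *
      generalize (cut G P X).card = b at *
      generalize (cut G G.es X).card = t at *
      have ht3 : 3 ≤ t := by omega
      have ht3q : (3 : ℚ) ≤ (t : ℚ) := by exact_mod_cast ht3
      rcases (by omega : a + b + 4 ≤ 2 * t ∨ 2 * t ≤ a + b + 2) with h8 | h8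
      · have h9 : (a : ℚ) + b + 4 ≤ 2 * t := by exact_mod_cast h8
        rcases le_or_gt 0 (1 - 3 * x) with hs | hs
        · have h10 : (1 - 3 * x) * ((a : ℚ) + b) ≤ (1 - 3 * x) * (2 * t - 4) :=
            mul_le_mul_of_nonneg_left (by linarith) hs
          nlinarith
        · have h11 : (2 : ℚ) ≤ (a : ℚ) + b := by
            have : 2 ≤ a + b := by omega
            exact_mod_cast this
          have h12 : (3 * x - 1) * 2 ≤ (3 * x - 1) * ((a : ℚ) + b) :=
            mul_le_mul_of_nonneg_left h11 (by linarith)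
          have h13 : 3 * ((1 - x) / 2) ≤ (t : ℚ) * ((1 - x) / 2) :=
            mul_le_mul_of_nonneg_right ht3q (by linarith)
          linarith
      · obtain ⟨h9, h10⟩ := h7 h8
        have h11 : a + b + 2 = 2 * t := by omega
        have h12 : (a : ℚ) + b = 2 * t - 2 := by
          have : (a : ℚ) + b + 2 = 2 * t := by exact_mod_cast h11
          linarith
        have h13 : (m : ℚ) + 4 ≤ 2 * t := by exact_mod_cast h10
        rw [h12]
        nlinarith
  obtain ⟨N, hN, hle⟩ := hE V E G (tw M P x) hw (fun e => if e ∈ M ∩ P then 1 else 0)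
  refine ⟨N, hN, ?_⟩
  rintro e ⟨h1, h2, h3⟩
  have h4 : ∑ e ∈ N, (if e ∈ M ∩ P then (1 : ℚ) else 0) = ((N ∩ (M ∩ P)).card : ℚ) := by
    rw [Finset.sum_ite_mem, Finset.sum_const, nsmul_eq_mul, mul_one]
  have h5 : ∑ e ∈ G.es, (if e ∈ M ∩ P then (1 : ℚ) else 0) * tw M P x e = x * m := by
    have h6 : ∀ e ∈ G.es, (if e ∈ M ∩ P then (1 : ℚ) else 0) * tw M P x e =
        if e ∈ M ∩ P then x else 0 := by
      intro e _
      by_cases h : e ∈ M ∩ P
      · have h7 := Finset.mem_inter.1 h
        rw [if_pos h, if_pos h]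
        unfold tw
        rw [if_pos h7.1, if_pos h7.2]
        ring
      · rw [if_neg h, if_neg h, zero_mul]
    rw [Finset.sum_congr rfl h6, Finset.sum_ite_mem, Finset.sum_const, nsmul_eq_mul,
      Finset.inter_eq_right.2 (fun e he => hM.sub (Finset.mem_inter.1 he).1), mul_comm]
  rw [h4, h5] at hle
  have h6 : (1 : ℚ) ≤ ((N ∩ (M ∩ P)).card : ℚ) := by
    have : 1 ≤ (N ∩ (M ∩ P)).card :=
      Finset.card_pos.2 ⟨e, Finset.mem_inter.2 ⟨h3, Finset.mem_inter.2 ⟨h1, h2⟩⟩⟩
    exact_mod_cast this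
  nlinarith

end

/-- third perfect matching and flow with four lines -/
theorem third_flow (V E : Type) [Fintype V] [DecidableEq V] [Fintype E] [DecidableEq E]
    (h t : E → V) (hne : ∀ e, h e ≠ t e)
    (hdeg : ∀ v, (univ.filter (fun e => h e = v)).card + (univ.filter (fun e => t e = v)).card = 3)
    (hbr : ∀ S : Finset V,
      (univ.filter (fun e => (h e ∈ S ∧ t e ∉ S) ∨ (h e ∉ S ∧ t e ∈ S))).card ≠ 1)
    (M P : Finset E) (hM : ∀ v, (M.filter (fun e => h e = v ∨ t e = v)).card = 1)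
    (hP : ∀ v, (P.filter (fun e => h e = v ∨ t e = v)).card = 1)
    (hcut : ∀ S : Finset V, Odd S.card →
      (univ.filter (fun e => (h e ∈ S ∧ t e ∉ S) ∨ (h e ∉ S ∧ t e ∈ S)) \ M).card +
        (univ.filter (fun e => (h e ∈ S ∧ t e ∉ S) ∨ (h e ∉ S ∧ t e ∈ S)) \ P).card ≤ 2 →
      0 < (univ.filter (fun e => (h e ∈ S ∧ t e ∉ S) ∨ (h e ∉ S ∧ t e ∈ S)) \ M).card +
        (univ.filter (fun e => (h e ∈ S ∧ t e ∉ S) ∨ (h e ∉ S ∧ t e ∈ S)) \ P).card ∧
      (M ∩ P).card + 4 ≤
        2 * (univ.filter (fun e => (h e ∈ S ∧ t e ∉ S) ∨ (h e ∉ S ∧ t e ∈ S))).card) :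
    (∃ N : Finset E, (∀ v, (N.filter (fun e => h e = v ∨ t e = v)).card = 1) ∧
      ∀ e, ¬ (e ∈ M ∧ e ∈ P ∧ e ∈ N)) ∧
    ∃ f : E → (Fin 3 → ZMod 2),
        (∀ e, f e ≠ 0) ∧
        (∀ v, (∑ e ∈ univ.filter (fun e => h e = v), f e)
              + (∑ e ∈ univ.filter (fun e => t e = v), f e) = 0) ∧
        (univ.image
          (fun v => (univ.filter (fun e => h e = v ∨ t e = v)).image f)).card ≤ 4 := by
  classical
  set G : Gr V E := ⟨Finset.univ, Finset.univ, h, t⟩ with hG
  have hcutE : ∀ X : Finset V, cut G G.es X =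
      Finset.univ.filter (fun e => (h e ∈ X ∧ t e ∉ X) ∨ (h e ∉ X ∧ t e ∈ X)) := by
    intro X
    ext e
    rw [mem_cut]
    simp only [Finset.mem_filter, Finset.mem_univ, true_and, Cr, hG]
    tauto
  have hok : Ok G := by
    refine ⟨fun e _ => Finset.mem_univ _, fun e _ => Finset.mem_univ _, fun e _ => hne e, ?_, ?_⟩
    · intro v _
      rw [← hdeg v]
      change (Finset.univ.filter (fun e => h e = v ∨ t e = v)).card = _
      rw [Finset.filter_or, Finset.card_union_of_disjoint]
      rw [Finset.disjoint_left]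
      intro e h1 h2
      simp only [Finset.mem_filter, Finset.mem_univ, true_and] at h1 h2
      exact hne e (h1.trans h2.symm)
    · intro X _
      rw [hcutE X]
      exact hbr X
  have hPM : PM G M := ⟨Finset.subset_univ _, fun v _ => hM v⟩
  have hPP : PM G P := ⟨Finset.subset_univ _, fun v _ => hP v⟩
  have hsd : ∀ (A : Finset E), A ⊆ G.es → ∀ X : Finset V,
      (cut G G.es X \ A).card + (cut G A X).card = (cut G G.es X).card := by
    intro A hA X
    rw [← third_cut_filter hA X, Finset.filter_mem_eq_inter]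
    exact Finset.card_sdiff_add_card_inter _ _
  obtain ⟨N, hN, hNe⟩ := third_matching edm hok hPM hPP (by
    intro X _ ho hle
    have h1 := hsd M hPM.sub X
    have h2 := hsd P hPP.sub X
    have h3 := hcut X ho
    rw [← hcutE X] at h3
    have h4 := h3 (by omega)
    refine ⟨by omega, h4.2⟩)
  exact ⟨⟨N, fun v => hN.deg v (Finset.mem_univ v), hNe⟩, flow4 h t M P N hok hPM hPP hN hNe⟩

theorem third_result (V E : Type) [Fintype V] [DecidableEq V] [Fintype E] [DecidableEq E]
    (h t : E → V) (hne : ∀ e, h e ≠ t e)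
    (hdeg : ∀ v, (univ.filter (fun e => h e = v)).card + (univ.filter (fun e => t e = v)).card = 3)
    (hbr : ∀ S : Finset V,
      (univ.filter (fun e => (h e ∈ S ∧ t e ∉ S) ∨ (h e ∉ S ∧ t e ∈ S))).card ≠ 1)
    (M P : Finset E) (hM : ∀ v, (M.filter (fun e => h e = v ∨ t e = v)).card = 1)
    (hP : ∀ v, (P.filter (fun e => h e = v ∨ t e = v)).card = 1)
    (hab : (∃ k : ℕ, (M ∩ P).card < k ∧ ∀ S : Finset V, Odd S.card →
        (univ.filter (fun e => (h e ∈ S ∧ t e ∉ S) ∨ (h e ∉ S ∧ t e ∈ S)) ⊆ M ∨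
          univ.filter (fun e => (h e ∈ S ∧ t e ∉ S) ∨ (h e ∉ S ∧ t e ∈ S)) ⊆ P) →
        k ≤ (univ.filter (fun e => (h e ∈ S ∧ t e ∉ S) ∨ (h e ∉ S ∧ t e ∈ S))).card) ∨
      (∀ S : Finset V, Odd S.card →
        (univ.filter (fun e => (h e ∈ S ∧ t e ∉ S) ∨ (h e ∉ S ∧ t e ∈ S)) \ M).card +
          (univ.filter (fun e => (h e ∈ S ∧ t e ∉ S) ∨ (h e ∉ S ∧ t e ∈ S)) \ P).card ≤ 2 →
        0 < (univ.filter (fun e => (h e ∈ S ∧ t e ∉ S) ∨ (h e ∉ S ∧ t e ∈ S)) \ M).card +
          (univ.filter (fun e => (h e ∈ S ∧ t e ∉ S) ∨ (h e ∉ S ∧ t e ∈ S)) \ P).card ∧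
        (M ∩ P).card + 4 ≤
          2 * (univ.filter (fun e => (h e ∈ S ∧ t e ∉ S) ∨ (h e ∉ S ∧ t e ∈ S))).card)) :
    (∃ N : Finset E, (∀ v, (N.filter (fun e => h e = v ∨ t e = v)).card = 1) ∧
      ∀ e, ¬ (e ∈ M ∧ e ∈ P ∧ e ∈ N)) ∧
    ∃ f : E → (Fin 3 → ZMod 2),
        (∀ e, f e ≠ 0) ∧
        (∀ v, (∑ e ∈ univ.filter (fun e => h e = v), f e)
              + (∑ e ∈ univ.filter (fun e => t e = v), f e) = 0) ∧
        (univ.image
          (fun v => (univ.filter (fun e => h e = v ∨ t e = v)).image f)).card ≤ 4 := by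
  classical
  apply third_flow V E h t hne hdeg hbr M P hM hP
  rcases hab with ⟨k, hmk, hk⟩ | hb
  · set G : Gr V E := ⟨Finset.univ, Finset.univ, h, t⟩ with hG
    have hcutE : ∀ X : Finset V, cut G G.es X =
        Finset.univ.filter (fun e => (h e ∈ X ∧ t e ∉ X) ∨ (h e ∉ X ∧ t e ∈ X)) := by
      intro X
      ext e
      rw [mem_cut]
      simp only [Finset.mem_filter, Finset.mem_univ, true_and, Cr, hG]
      tauto
    have hok : Ok G := by
      refine ⟨fun e _ => Finset.mem_univ _, fun e _ => Finset.mem_univ _, fun e _ => hne e, ?_, ?_⟩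
      · intro v _
        rw [← hdeg v]
        change (Finset.univ.filter (fun e => h e = v ∨ t e = v)).card = _
        rw [Finset.filter_or, Finset.card_union_of_disjoint]
        rw [Finset.disjoint_left]
        intro e h1 h2
        simp only [Finset.mem_filter, Finset.mem_univ, true_and] at h1 h2
        exact hne e (h1.trans h2.symm)
      · intro X _
        rw [hcutE X]
        exact hbr X
    have hPM : PM G M := ⟨Finset.subset_univ _, fun v _ => hM v⟩
    have hPP : PM G P := ⟨Finset.subset_univ _, fun v _ => hP v⟩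
    have hsd : ∀ (A : Finset E), A ⊆ G.es → ∀ X : Finset V,
        (cut G G.es X \ A).card + (cut G A X).card = (cut G G.es X).card := by
      intro A hA X
      rw [← third_cut_filter hA X, Finset.filter_mem_eq_inter]
      exact Finset.card_sdiff_add_card_inter _ _
    intro S ho hle
    have h1 := hsd M hPM.sub S
    have h2 := hsd P hPP.sub S
    have h3 := cut_parity hok (Finset.subset_univ S)
    have h4 := cutN_parity hok hPM (Finset.subset_univ S)
    have h5 := cutN_parity hok hPP (Finset.subset_univ S)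
    have h6 := Nat.odd_iff.1 ho
    have h7 := hok.br S (Finset.subset_univ S)
    have hk' := hk S ho
    rw [← hcutE S] at hle hk' ⊢
    have h8 : (cut G G.es S \ M).card = 0 ∨ (cut G G.es S \ P).card = 0 := by omega
    have h9 : k ≤ (cut G G.es S).card := by
      apply hk'
      rcases h8 with h8 | h8
      · left
        exact Finset.sdiff_eq_empty_iff_subset.1 (Finset.card_eq_zero.1 h8)
      · right
        exact Finset.sdiff_eq_empty_iff_subset.1 (Finset.card_eq_zero.1 h8)
    refine ⟨?_, by omega⟩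
    by_contra hcon
    have h10 : (cut G G.es S \ M).card = 0 := by omega
    have h11 : (cut G G.es S \ P).card = 0 := by omega
    have h12 := Finset.sdiff_eq_empty_iff_subset.1 (Finset.card_eq_zero.1 h10)
    have h13 := Finset.sdiff_eq_empty_iff_subset.1 (Finset.card_eq_zero.1 h11)
    have h14 := Finset.card_le_card (Finset.subset_inter h12 h13)
    omega
  · exact hb

end Pool.Agent.H41.RG
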